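import Pool.Agent.Run7.h430.TO.Win

set_option autoImplicit false

/-!
Tuples of integers near tuples of orbits of Euler's function: statements with sets (helper430).
-/

namespace Run7.h430.TO

open Finset Filter Topology
open Pool.Agent.N733.TG (LM Box mem_Box card_Box box_fiber)
open Pool.Agent.N760.IT (orb)

/-- `t` is within `w` of a tuple `a i F i (φ_{j i} (m i))`, `j i, a i ≤ J` -/
def NearT {k : ℕ} (F : Fin k → ℕ → ℕ) (J : ℕ) (w : ℝ) (m t : Fin k → ℕ) : Prop :=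
  ∃ j a : Fin k → ℕ, (∀ i, j i ≤ J) ∧ (∀ i, 1 ≤ a i ∧ a i ≤ J) ∧
    ∀ i, 1 ≤ t i ∧ |(t i : ℝ) - a i * orb (F i) (j i) (m i)| ≤ w

/-- one scale -/
theorem win_set {k : ℕ} {F : Fin k → ℕ → ℕ} (hF : ∀ i, LM (F i)) (hL : ∀ i, Lin (F i))
    {c ρ κ : ℝ} (hρ : 0 < ρ) (hκ0 : 0 ≤ κ) (hκ1 : κ ≤ 1) (hκ : k * κ < c) (C₀ : ℝ) :
    ∃ K : ℕ → ℕ, Tendsto K atTop atTop ∧ ∀ ε : ℝ, 0 < ε → ∃ N₀ : ℕ, ∀ N : ℕ, N₀ ≤ N → ∀ W : Set (Fin k → ℕ),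
      ({t : Fin k → ℕ | (∀ i, 1 ≤ t i ∧ t i ≤ ⌊(N : ℝ) ^ (1 + ρ)⌋₊) ∧ t ∈ W}.ncard : ℝ) ≤ C₀ * (N : ℝ) ^ ((k : ℝ) - c) →
      ({m : Fin k → ℕ | (∀ i, 1 ≤ m i ∧ m i ≤ N) ∧ ∃ t ∈ W, NearT F (K N) ((N : ℝ) ^ κ) m t}.ncard : ℝ) ≤
        ε * (N : ℝ) ^ k := by
  classical
  obtain ⟨K, hK, h⟩ := win_orb hF hL hρ hκ0 hκ1 hκ C₀
  refine ⟨K, hK, fun ε hε => ?_⟩
  obtain ⟨N₀, hN₀⟩ := h ε hε
  refine ⟨N₀, fun N hN W hW => ?_⟩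
  have h1 := hN₀ N hN W (by
    refine le_trans (le_of_eq ?_) hW
    rw [← Set.ncard_coe_finset]
    congr 2
    ext t
    rw [coe_filter]
    simp only [mem_Box, Set.mem_ofPred_eq])
  refine le_trans (le_of_eq ?_) h1
  rw [← Set.ncard_coe_finset]
  congr 2
  ext m
  rw [coe_filter]
  simp only [mem_Box, Set.mem_ofPred_eq]
  constructor
  · rintro ⟨hm, t, ht, j, a, h2, h3, h4⟩
    exact ⟨hm, j, a, h2, h3, t, ht, h4⟩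
  · rintro ⟨hm, j, a, h2, h3, t, ht, h4⟩
    exact ⟨hm, t, ht, j, a, h2, h3, h4⟩

/-- all scales -/
theorem win_all {k : ℕ} {F : Fin k → ℕ → ℕ} (hF : ∀ i, LM (F i)) (hL : ∀ i, Lin (F i))
    {c κ : ℝ} (hck : c ≤ k) (hκ0 : 0 ≤ κ) (hκ1 : κ ≤ 1) (hκ : k * κ < c) (C₀ : ℝ) :
    ∃ K : ℕ → ℕ, Tendsto K atTop atTop ∧ ∀ ε : ℝ, 0 < ε → ∃ N₀ : ℕ, ∀ N : ℕ, N₀ ≤ N → ∀ W : Set (Fin k → ℕ),
      (∀ X : ℕ, 1 ≤ X → ({t : Fin k → ℕ | (∀ i, 1 ≤ t i ∧ t i ≤ X) ∧ t ∈ W}.ncard : ℝ) ≤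
        C₀ * (X : ℝ) ^ ((k : ℝ) - c)) →
      ({m : Fin k → ℕ | (∀ i, 1 ≤ m i ∧ m i ≤ N) ∧ ∃ t ∈ W, NearT F (K N) ((N : ℝ) ^ κ) m t}.ncard : ℝ) ≤
        ε * (N : ℝ) ^ k := by
  obtain ⟨c', hc'⟩ : ∃ c' : ℝ, c' = (c + k * κ) / 2 := ⟨_, rfl⟩
  have h1 : k * κ < c' := by rw [hc']; linarith
  have h2 : c' < c := by rw [hc']; linarith
  obtain ⟨ρ, hρ⟩ : ∃ ρ : ℝ, ρ = (c - c') / (k + 1) := ⟨_, rfl⟩
  have hk0 : (0 : ℝ) ≤ k := Nat.cast_nonneg _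
  have hc0 : 0 ≤ c := le_trans (by positivity) hκ.le
  have hρ0 : 0 < ρ := by rw [hρ]; exact div_pos (by linarith) (by linarith)
  have hρk : ρ * (k + 1) = c - c' := by rw [hρ]; field_simp
  obtain ⟨K, hK, h⟩ := win_set hF hL hρ0 hκ0 hκ1 h1 (C₀ := |C₀|)
  refine ⟨K, hK, fun ε hε => ?_⟩
  obtain ⟨N₀, hN₀⟩ := h ε hε
  refine ⟨max N₀ 1, fun N hN W hW => hN₀ N ((le_max_left _ _).trans hN) W ?_⟩
  have hN1 : (1 : ℝ) ≤ N := by exact_mod_cast (le_max_right N₀ 1).trans hN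
  have hN0 : (0 : ℝ) < N := by linarith
  have hX1 : 1 ≤ ⌊(N : ℝ) ^ (1 + ρ)⌋₊ := Nat.le_floor (by
    rw [Nat.cast_one]
    exact Real.one_le_rpow hN1 (by linarith))
  have hXle : ((⌊(N : ℝ) ^ (1 + ρ)⌋₊ : ℕ) : ℝ) ≤ (N : ℝ) ^ (1 + ρ) := Nat.floor_le (by positivity)
  refine (hW _ hX1).trans ?_
  refine (mul_le_mul_of_nonneg_right (le_abs_self C₀) (by positivity)).trans (mul_le_mul_of_nonneg_left ?_ (abs_nonneg C₀))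
  calc ((⌊(N : ℝ) ^ (1 + ρ)⌋₊ : ℕ) : ℝ) ^ ((k : ℝ) - c) ≤ ((N : ℝ) ^ (1 + ρ)) ^ ((k : ℝ) - c) :=
        Real.rpow_le_rpow (Nat.cast_nonneg _) hXle (by linarith)
    _ = (N : ℝ) ^ ((1 + ρ) * ((k : ℝ) - c)) := by rw [← Real.rpow_mul hN0.le]
    _ ≤ (N : ℝ) ^ ((k : ℝ) - c') := by
        apply Real.rpow_le_rpow_of_exponent_le hN1
        nlinarith

end Run7.h430.TO
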