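import Pool.Agent.Run7.h430.TO.Reg
import Pool.Agent.N733.TG.J

set_option autoImplicit false

/-!
Tuples of orbits of Euler's function avoid sets of tuples with a power saving, at one scale (helper430). The argument for the
tuples is the one of `Pool.Agent.N733.TG.tuples` (helper733), with the theorem `Pool.Agent.N760.IT.densW` on the iterates.
-/

namespace Run7.h430.TO

open Finset Filter Topology
open Pool.Agent.N733.TG (LM Box mem_Box card_Box box_fiber)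
open Pool.Agent.N760.IT (orb densW Few)

open Classical in
/-- one orbit, one scale -/
theorem avoid_orb {f : ℕ → ℕ} (hf : LM f) (hl : Lin f) (k : ℕ) {θ ρ : ℝ} (hθ0 : 0 ≤ θ) (hθ1 : θ < 1) (hρ : 0 < ρ) (C₀ : ℝ)
    (ε : ℝ) (hε : 0 < ε) : ∃ N₀ : ℕ, ∀ N : ℕ, N₀ ≤ N → ∀ W : Set ℕ,
      (((Icc 1 ⌊(N : ℝ) ^ (1 + ρ)⌋₊).filter (fun v => v ∈ W)).card : ℝ) ≤ C₀ * (N : ℝ) ^ θ →
      (((Icc 1 N).filter (fun m => orb f k m ∈ W ∨ ⌊(N : ℝ) ^ (1 + ρ)⌋₊ < orb f k m)).card : ℝ) ≤ ε * N := by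
  obtain ⟨η, hη⟩ : ∃ η, η = (1 - θ) / 2 := ⟨_, rfl⟩
  have hη0 : 0 < η := by rw [hη]; linarith
  have hη1 : η ≤ 1 / 2 := by rw [hη]; linarith
  obtain ⟨ε₁, hε₁⟩ : ∃ ε₁, ε₁ = min η ρ / 2 := ⟨_, rfl⟩
  have hε₁0 : 0 < ε₁ := by rw [hε₁]; exact half_pos (lt_min hη0 hρ)
  have hε₁η : ε₁ ≤ η / 2 := by rw [hε₁]; linarith [min_le_left η ρ]
  have hε₁ρ : ε₁ ≤ ρ / 2 := by rw [hε₁]; linarith [min_le_right η ρ]
  obtain ⟨C, hC, hlin⟩ := lin_orb hl k ε₁ hε₁0
  obtain ⟨N₁, hN₁⟩ := densW hf (θ := (1 + θ) / 2) (by linarith) (by linarith) (max C₀ 0) k (ε / 2) (by positivity)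
  have hlim1 := ((tendsto_rpow_atTop (show (0 : ℝ) < η / 4 by linarith)).comp
    (tendsto_natCast_atTop_atTop (R := ℝ))).eventually_ge_atTop (max (C + 1) (2 / ε))
  have hlim2 := ((tendsto_rpow_atTop (show (0 : ℝ) < ρ / 2 by linarith)).comp
    (tendsto_natCast_atTop_atTop (R := ℝ))).eventually_ge_atTop C
  obtain ⟨N₂, hN₂⟩ := eventually_atTop.1 (hlim1.and hlim2)
  refine ⟨max (max N₁ N₂) 1, fun N hN W hW => ?_⟩
  have hNN₁ : N₁ ≤ N := (le_max_left _ _).trans ((le_max_left _ _).trans hN)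
  have hNN₂ : N₂ ≤ N := (le_max_right _ _).trans ((le_max_left _ _).trans hN)
  have hN1 : 1 ≤ N := (le_max_right _ _).trans hN
  have hN1r : (1 : ℝ) ≤ N := by exact_mod_cast hN1
  have hN0 : (0 : ℝ) < N := by linarith
  obtain ⟨g1, g2⟩ := hN₂ N hNN₂
  simp only [Function.comp] at g1 g2
  have g1a : C + 1 ≤ (N : ℝ) ^ (η / 4) := (le_max_left _ _).trans g1
  have g1b : 2 / ε ≤ (N : ℝ) ^ (η / 4) := (le_max_right _ _).trans g1
  obtain ⟨X, hX⟩ : ∃ X : ℕ, X = ⌊(N : ℝ) ^ (1 + ρ)⌋₊ := ⟨_, rfl⟩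
  rw [← hX] at hW ⊢
  obtain ⟨W', hW'⟩ : ∃ W' : Set ℕ, W' = {v | v ∈ W ∧ (N : ℝ) ^ (1 - η) < v ∧ v ≤ X} := ⟨_, rfl⟩
  have hfew : Few (max C₀ 0) ((1 + θ) / 2) W' := by
    intro Y hY
    have hY1 : (1 : ℝ) ≤ Y := by exact_mod_cast hY
    by_cases hYN : (Y : ℝ) ≤ (N : ℝ) ^ (1 - η)
    · have : (Icc 1 Y).filter (fun v => v ∈ W') = ∅ := by
        rw [filter_eq_empty_iff]
        intro v hv hvW
        rw [hW'] at hvW
        rw [mem_Icc] at hv
        have h1 : (v : ℝ) ≤ Y := by exact_mod_cast hv.2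
        linarith [hvW.2.1]
      rw [this]
      simp only [card_empty, Nat.cast_zero]
      positivity
    · push Not at hYN
      have h1 : ((Icc 1 Y).filter (fun v => v ∈ W')).card ≤ ((Icc 1 X).filter (fun v => v ∈ W)).card := by
        refine card_le_card (fun v hv => ?_)
        rw [mem_filter, mem_Icc, hW'] at hv
        rw [mem_filter, mem_Icc]
        exact ⟨⟨hv.1.1, hv.2.2.2⟩, hv.2.1⟩
      calc (((Icc 1 Y).filter (fun v => v ∈ W')).card : ℝ) ≤ (((Icc 1 X).filter (fun v => v ∈ W)).card : ℝ) := by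
            exact_mod_cast h1
        _ ≤ C₀ * (N : ℝ) ^ θ := hW
        _ ≤ max C₀ 0 * (N : ℝ) ^ θ := mul_le_mul_of_nonneg_right (le_max_left _ _) (by positivity)
        _ ≤ max C₀ 0 * (Y : ℝ) ^ ((1 + θ) / 2) := by
            apply mul_le_mul_of_nonneg_left _ (le_max_right _ _)
            calc (N : ℝ) ^ θ ≤ (N : ℝ) ^ ((1 - η) * ((1 + θ) / 2)) := by
                  apply Real.rpow_le_rpow_of_exponent_le hN1r
                  rw [hη]
                  nlinarith [sq_nonneg (1 - θ)]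
              _ = ((N : ℝ) ^ (1 - η)) ^ ((1 + θ) / 2) := by rw [Real.rpow_mul hN0.le]
              _ ≤ (Y : ℝ) ^ ((1 + θ) / 2) := Real.rpow_le_rpow (by positivity) hYN.le (by linarith)
  have h1 := hN₁ N hNN₁ W' hfew
  -- small arguments
  have h2 : (((Icc 1 N).filter (fun m : ℕ => (m : ℝ) ≤ (N : ℝ) ^ (1 - η / 4))).card : ℝ) ≤ ε / 2 * N := by
    have h3 : ((Icc 1 N).filter (fun m : ℕ => (m : ℝ) ≤ (N : ℝ) ^ (1 - η / 4))).card ≤ ⌊(N : ℝ) ^ (1 - η / 4)⌋₊ := by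
      calc ((Icc 1 N).filter (fun m : ℕ => (m : ℝ) ≤ (N : ℝ) ^ (1 - η / 4))).card
          ≤ (Icc 1 ⌊(N : ℝ) ^ (1 - η / 4)⌋₊).card := card_le_card (fun m hm => by
            rw [mem_filter, mem_Icc] at hm
            rw [mem_Icc]
            exact ⟨hm.1.1, Nat.le_floor hm.2⟩)
        _ = ⌊(N : ℝ) ^ (1 - η / 4)⌋₊ := by rw [Nat.card_Icc, Nat.add_sub_cancel]
    calc (((Icc 1 N).filter (fun m : ℕ => (m : ℝ) ≤ (N : ℝ) ^ (1 - η / 4))).card : ℝ)
        ≤ ((⌊(N : ℝ) ^ (1 - η / 4)⌋₊ : ℕ) : ℝ) := by exact_mod_cast h3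
      _ ≤ (N : ℝ) ^ (1 - η / 4) := Nat.floor_le (by positivity)
      _ = N / (N : ℝ) ^ (η / 4) := by rw [Real.rpow_sub hN0, Real.rpow_one]
      _ ≤ N / (2 / ε) := div_le_div_of_nonneg_left hN0.le (by positivity) g1b
      _ = ε / 2 * N := by field_simp
  have hsub : (Icc 1 N).filter (fun m => orb f k m ∈ W ∨ X < orb f k m) ⊆
      (Icc 1 N).filter (fun m => f (Nat.totient^[k] m) ∈ W') ∪
        (Icc 1 N).filter (fun m : ℕ => (m : ℝ) ≤ (N : ℝ) ^ (1 - η / 4)) := by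
    intro m hm
    rw [mem_filter] at hm
    rw [mem_union, mem_filter, mem_filter]
    by_cases hms : (m : ℝ) ≤ (N : ℝ) ^ (1 - η / 4)
    · exact Or.inr ⟨hm.1, hms⟩
    left
    refine ⟨hm.1, ?_⟩
    push Not at hms
    obtain ⟨hmI, hmW⟩ := hm
    rw [mem_Icc] at hmI
    have hm1 : (1 : ℝ) ≤ m := by exact_mod_cast hmI.1
    have hmN : (m : ℝ) ≤ N := by exact_mod_cast hmI.2
    obtain ⟨b1, b2⟩ := hlin m hmI.1
    have hup : (orb f k m : ℝ) ≤ (N : ℝ) ^ (1 + ρ) := by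
      calc (orb f k m : ℝ) ≤ C * (m : ℝ) ^ (1 + ε₁) := b2
        _ ≤ (N : ℝ) ^ (ρ / 2) * (N : ℝ) ^ (1 + ρ / 2) := by
            refine mul_le_mul g2 ?_ (by positivity) (by positivity)
            calc (m : ℝ) ^ (1 + ε₁) ≤ (N : ℝ) ^ (1 + ε₁) := Real.rpow_le_rpow (by linarith) hmN (by linarith)
              _ ≤ (N : ℝ) ^ (1 + ρ / 2) := Real.rpow_le_rpow_of_exponent_le hN1r (by linarith)
        _ = (N : ℝ) ^ (1 + ρ) := by
            rw [← Real.rpow_add hN0]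
            congr 1
            ring
    have hupX : orb f k m ≤ X := by rw [hX]; exact Nat.le_floor hup
    have hlow : (N : ℝ) ^ (1 - η) < orb f k m := by
      have c1 : (N : ℝ) ^ (1 - 3 * η / 4) ≤ C * orb f k m := by
        calc (N : ℝ) ^ (1 - 3 * η / 4) ≤ (N : ℝ) ^ ((1 - η / 4) * (1 - ε₁)) := by
              apply Real.rpow_le_rpow_of_exponent_le hN1r
              nlinarith
          _ = ((N : ℝ) ^ (1 - η / 4)) ^ (1 - ε₁) := by rw [Real.rpow_mul hN0.le]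
          _ ≤ (m : ℝ) ^ (1 - ε₁) := Real.rpow_le_rpow (by positivity) hms.le (by linarith)
          _ ≤ C * orb f k m := b1
      have c2 : C * (N : ℝ) ^ (1 - η) < (N : ℝ) ^ (1 - 3 * η / 4) := by
        have e : (N : ℝ) ^ (1 - 3 * η / 4) = (N : ℝ) ^ (η / 4) * (N : ℝ) ^ (1 - η) := by
          rw [← Real.rpow_add hN0]
          congr 1
          ring
        rw [e]
        have : 0 < (N : ℝ) ^ (1 - η) := by positivity
        exact mul_lt_mul_of_pos_right (by linarith) this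
      exact lt_of_mul_lt_mul_left (lt_of_lt_of_le c2 c1) (by linarith)
    rw [hW']
    have hmW' : orb f k m ∈ W := by
      rcases hmW with h | h
      · exact h
      · omega
    exact ⟨hmW', hlow, hupX⟩
  have h3 := (card_le_card hsub).trans (card_union_le _ _)
  have h4 : (((Icc 1 N).filter (fun m => orb f k m ∈ W ∨ X < orb f k m)).card : ℝ) ≤
      (((Icc 1 N).filter (fun m => f (Nat.totient^[k] m) ∈ W')).card : ℝ) +
        (((Icc 1 N).filter (fun m : ℕ => (m : ℝ) ≤ (N : ℝ) ^ (1 - η / 4))).card : ℝ) := by exact_mod_cast h3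
  have h1' : (((Icc 1 N).filter (fun m => f (Nat.totient^[k] m) ∈ W')).card : ℝ) ≤ ε / 2 * N := by
    refine le_trans (le_of_eq ?_) h1
    congr!
  linarith

open Classical in
/-- tuples, one scale -/
theorem tuples_orb (k : ℕ) : ∀ (F : Fin k → ℕ → ℕ) (j : Fin k → ℕ), (∀ i, LM (F i)) → (∀ i, Lin (F i)) → ∀ (c ρ : ℝ),
    0 < c → 0 < ρ → ∀ (C₀ ε : ℝ), 0 < ε → ∃ N₀ : ℕ, ∀ N : ℕ, N₀ ≤ N → ∀ W : Set (Fin k → ℕ),
      (((Box k ⌊(N : ℝ) ^ (1 + ρ)⌋₊).filter (fun v => v ∈ W)).card : ℝ) ≤ C₀ * (N : ℝ) ^ ((k : ℝ) - c) →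
      (((Box k N).filter (fun m => (fun i => orb (F i) (j i) (m i)) ∈ W)).card : ℝ) ≤ ε * (N : ℝ) ^ k := by
  induction k with
  | zero =>
    intro F j hF hL c ρ hc hρ C₀ ε hε
    have ht : Filter.Tendsto (fun N : ℕ => C₀ * (N : ℝ) ^ (((0 : ℕ) : ℝ) - c)) Filter.atTop (nhds (C₀ * 0)) := by
      apply Filter.Tendsto.const_mul
      have h1 := (tendsto_rpow_neg_atTop hc).comp (tendsto_natCast_atTop_atTop (R := ℝ))
      refine h1.congr (fun N => ?_)
      simp only [Function.comp]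
      congr 1
      push_cast
      ring
    rw [mul_zero] at ht
    obtain ⟨N₀, hN₀⟩ := Filter.eventually_atTop.1 (ht.eventually_lt_const (show (0 : ℝ) < 1 by norm_num))
    refine ⟨N₀, fun N hN W hW => ?_⟩
    have h1 := hN₀ N hN
    have h2 : (((Box 0 ⌊(N : ℝ) ^ (1 + ρ)⌋₊).filter (fun v => v ∈ W)).card : ℝ) < 1 := lt_of_le_of_lt hW h1
    have h3 : ((Box 0 ⌊(N : ℝ) ^ (1 + ρ)⌋₊).filter (fun v => v ∈ W)).card = 0 := by
      have : ((Box 0 ⌊(N : ℝ) ^ (1 + ρ)⌋₊).filter (fun v => v ∈ W)).card < 1 := by exact_mod_cast h2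
      omega
    have h4 : ((Box 0 N).filter (fun m => (fun i => orb (F i) (j i) (m i)) ∈ W)).card = 0 := by
      rw [card_eq_zero, filter_eq_empty_iff] at h3 ⊢
      intro m hm hw
      exact h3 (x := fun i => orb (F i) (j i) (m i)) (mem_Box.2 (fun i => i.elim0)) hw
    rw [h4]
    simp only [Nat.cast_zero]
    positivity
  | succ k ih =>
    intro F j hF hL c ρ hc hρ C₀ ε hε
    obtain ⟨c', hc'⟩ : ∃ c' : ℝ, c' = min c 1 := ⟨_, rfl⟩
    have hc'0 : 0 < c' := by rw [hc']; exact lt_min hc one_pos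
    have hc'c : c' ≤ c := by rw [hc']; exact min_le_left _ _
    have hc'1 : c' ≤ 1 := by rw [hc']; exact min_le_right _ _
    obtain ⟨N₁, hN₁⟩ := avoid_orb (hF 0) (hL 0) (j 0) (θ := 1 - c' / 2) (ρ := ρ) (by linarith) (by linarith) hρ (max C₀ 0)
      (ε / 2) (by positivity)
    obtain ⟨N₂, hN₂⟩ := ih (fun i => F i.succ) (fun i => j i.succ) (fun i => hF i.succ) (fun i => hL i.succ) (c' / 2) ρ
      (by positivity) hρ 1 (ε / 2) (by positivity)
    refine ⟨max (max N₁ N₂) 1, fun N hN W hW => ?_⟩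
    have b1 : N₁ ≤ N := (le_max_left _ _).trans ((le_max_left _ _).trans hN)
    have b2 : N₂ ≤ N := (le_max_right _ _).trans ((le_max_left _ _).trans hN)
    have b3 : 1 ≤ N := (le_max_right _ _).trans hN
    have hN1 : (1 : ℝ) ≤ N := by exact_mod_cast b3
    have hN0 : (0 : ℝ) < N := by linarith
    obtain ⟨X, hX⟩ : ∃ X : ℕ, X = ⌊(N : ℝ) ^ (1 + ρ)⌋₊ := ⟨_, rfl⟩
    rw [← hX] at hW
    obtain ⟨sl, hsl⟩ : ∃ sl : ℕ → Set (Fin k → ℕ), sl = fun x => {y | (Fin.cons x y : Fin (k + 1) → ℕ) ∈ W} := ⟨_, rfl⟩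
    obtain ⟨B, hB⟩ : ∃ B : Set ℕ, B = {x |
      1 * (N : ℝ) ^ ((k : ℝ) - c' / 2) < (((Box k X).filter (fun y => y ∈ sl x)).card : ℝ)} := ⟨_, rfl⟩
    have hBc : (((Icc 1 ⌊(N : ℝ) ^ (1 + ρ)⌋₊).filter (fun v => v ∈ B)).card : ℝ) ≤ (max C₀ 0) * (N : ℝ) ^ (1 - c' / 2) := by
      rw [← hX]
      have h1 : (((Icc 1 X).filter (fun v => v ∈ B)).card : ℝ) * (N : ℝ) ^ ((k : ℝ) - c' / 2) ≤
          C₀ * (N : ℝ) ^ (((k + 1 : ℕ) : ℝ) - c) := by
        refine le_trans ?_ hW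
        rw [box_fiber]
        push_cast
        rw [← nsmul_eq_mul, ← sum_const]
        refine le_trans (sum_le_sum (g := fun x => (((Box k X).filter (fun y => y ∈ sl x)).card : ℝ)) ?_) ?_
        · intro x hx
          rw [mem_filter, mem_Icc, hB] at hx
          have h := hx.2
          simp only [Set.mem_ofPred_eq] at h
          rw [one_mul] at h
          exact h.le
        · rw [hsl]
          apply sum_le_sum_of_subset_of_nonneg (filter_subset _ _)
          intro x _ _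
          positivity
      have h2 : C₀ * (N : ℝ) ^ (((k + 1 : ℕ) : ℝ) - c) ≤ (max C₀ 0) * (N : ℝ) ^ (1 - c' / 2) * (N : ℝ) ^ ((k : ℝ) - c' / 2) := by
        rw [mul_assoc, ← Real.rpow_add hN0]
        apply mul_le_mul (le_max_left _ _) _ (by positivity) (le_max_right _ _)
        apply Real.rpow_le_rpow_of_exponent_le hN1
        push_cast
        linarith
      exact le_of_mul_le_mul_right (h1.trans h2) (by positivity)
    have h1 := hN₁ N b1 B hBc
    rw [← hX] at h1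
    have h2 : (((Box (k + 1) N).filter (fun m => (fun i => orb (F i) (j i) (m i)) ∈ W)).card : ℝ) =
        ∑ x ∈ Icc 1 N, (((Box k N).filter (fun y => (fun i => orb (F i.succ) (j i.succ) (y i)) ∈
          sl (orb (F 0) (j 0) x))).card : ℝ) := by
      have := box_fiber (k := k) (N := N) {m | (fun i => orb (F i) (j i) (m i)) ∈ W}
      simp only [Set.mem_ofPred_eq] at this
      rw [this]
      push_cast
      apply sum_congr rfl
      intro x _
      congr 2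
      apply filter_congr
      intro y _
      rw [hsl]
      simp only [Set.mem_ofPred_eq]
      have e : (fun i => orb (F i) (j i) ((Fin.cons x y : Fin (k + 1) → ℕ) i)) =
          (Fin.cons (orb (F 0) (j 0) x) (fun i => orb (F i.succ) (j i.succ) (y i)) : Fin (k + 1) → ℕ) := by
        funext i
        refine Fin.cases ?_ (fun j => ?_) i
        · rw [Fin.cons_zero, Fin.cons_zero]
        · rw [Fin.cons_succ, Fin.cons_succ]
      rw [e]
    have h3 : ∀ x ∈ Icc 1 N, (((Box k N).filter (fun y => (fun i => orb (F i.succ) (j i.succ) (y i)) ∈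
        sl (orb (F 0) (j 0) x))).card : ℝ) ≤
        (if (orb (F 0) (j 0) x ∈ B ∨ X < orb (F 0) (j 0) x) then (N : ℝ) ^ k else 0) + ε / 2 * (N : ℝ) ^ k := by
      intro x hx
      have hq : 0 ≤ ε / 2 * (N : ℝ) ^ k := by positivity
      split_ifs with h
      · have h4 : (((Box k N).filter (fun y => (fun i => orb (F i.succ) (j i.succ) (y i)) ∈
            sl (orb (F 0) (j 0) x))).card : ℝ) ≤ (N : ℝ) ^ k := by
          have := (card_filter_le (Box k N) (fun y => (fun i => orb (F i.succ) (j i.succ) (y i)) ∈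
            sl (orb (F 0) (j 0) x))).trans (card_Box k N).le
          exact_mod_cast this
        linarith
      · rw [zero_add]
        apply hN₂ N b2
        rw [← hX]
        rw [hB] at h
        simp only [Set.mem_ofPred_eq, not_or, not_lt] at h
        exact h.1
    rw [h2]
    refine (sum_le_sum h3).trans ?_
    rw [sum_add_distrib, ← sum_filter, sum_const, sum_const, nsmul_eq_mul, nsmul_eq_mul, Nat.card_Icc,
      Nat.add_sub_cancel]
    have h5 : (((Icc 1 N).filter (fun x => orb (F 0) (j 0) x ∈ B ∨ X < orb (F 0) (j 0) x)).card : ℝ) * (N : ℝ) ^ k ≤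
        (ε / 2 * N) * (N : ℝ) ^ k := mul_le_mul_of_nonneg_right h1 (by positivity)
    have h6 : ε * (N : ℝ) ^ (k + 1) = (ε / 2 * N) * (N : ℝ) ^ k + N * (ε / 2 * (N : ℝ) ^ k) := by
      rw [pow_succ]
      ring
    rw [h6]
    linarith

end Run7.h430.TO
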