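import Pool.Agent.N760.IT.C
import Pool.Agent.H510R2.Div

set_option autoImplicit false

/-!
Multiplicative functions of the exact order `v ^ (1 + o(1))`, and the size of the iterates (helper430).
-/

namespace Run7.h430.TO

open Finset Filter Topology
open Pool.Agent.N733.TG (LM lm_totient lm_sigma)
open Pool.Agent.N760.IT (orb lm_id)

/-- `f v = v ^ (1 + o(1))` -/
def Lin (f : ℕ → ℕ) : Prop :=
  ∀ ε : ℝ, 0 < ε → ∃ C : ℝ, 1 ≤ C ∧ ∀ v : ℕ, 1 ≤ v → (v : ℝ) ^ (1 - ε) ≤ C * f v ∧ (f v : ℝ) ≤ C * (v : ℝ) ^ (1 + ε)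

theorem lin_id : Lin (fun m => m) := by
  intro ε hε
  refine ⟨1, le_rfl, fun v hv => ?_⟩
  have hv1 : (1 : ℝ) ≤ v := by exact_mod_cast hv
  rw [one_mul, one_mul]
  constructor
  · calc (v : ℝ) ^ (1 - ε) ≤ (v : ℝ) ^ (1 : ℝ) := Real.rpow_le_rpow_of_exponent_le hv1 (by linarith)
      _ = v := Real.rpow_one _
  · calc (v : ℝ) = (v : ℝ) ^ (1 : ℝ) := (Real.rpow_one _).symm
      _ ≤ (v : ℝ) ^ (1 + ε) := Real.rpow_le_rpow_of_exponent_le hv1 (by linarith)

/-- `∏ p ≤ (|S| + 1) ∏ (p - 1)` for sets of integers `≥ 2` -/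
lemma prod_le_card (S : Finset ℕ) (hS : ∀ p ∈ S, 2 ≤ p) :
    ∏ p ∈ S, p ≤ (S.card + 1) * ∏ p ∈ S, (p - 1) := by
  induction S using Finset.induction_on_max with
  | empty => simp
  | insert a s hlt ih =>
    have has : a ∉ s := fun h => (hlt a h).false
    rw [Finset.prod_insert has, Finset.prod_insert has, Finset.card_insert_of_notMem has]
    have h1 := ih fun p hp => hS p (Finset.mem_insert_of_mem hp)
    have h2 : 2 ≤ a := hS a (Finset.mem_insert_self _ _)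
    have h3 : s.card + 2 ≤ a := by
      have : s ⊆ Finset.Ico 2 a := fun p hp =>
        Finset.mem_Ico.mpr ⟨hS p (Finset.mem_insert_of_mem hp), hlt p hp⟩
      have := Finset.card_le_card this
      rw [Nat.card_Ico] at this
      omega
    obtain ⟨a', rfl⟩ : ∃ a', a = a' + 1 := ⟨a - 1, by omega⟩
    rw [Nat.add_sub_cancel]
    calc (a' + 1) * ∏ p ∈ s, p ≤ (a' + 1) * ((s.card + 1) * ∏ p ∈ s, (p - 1)) :=
          Nat.mul_le_mul_left _ h1
      _ = ((a' + 1) * (s.card + 1)) * ∏ p ∈ s, (p - 1) := by ring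
      _ ≤ ((s.card + 1 + 1) * a') * ∏ p ∈ s, (p - 1) := by
          apply Nat.mul_le_mul_right
          nlinarith
      _ = (s.card + 1 + 1) * (a' * ∏ p ∈ s, (p - 1)) := by ring

/-- `d ≤ φ(d) (log₂ d + 1)` -/
lemma le_totient (d : ℕ) (hd : 1 ≤ d) : d ≤ Nat.totient d * (Nat.log 2 d + 1) := by
  have h1 := Nat.totient_mul_prod_primeFactors d
  have h2 : ∏ p ∈ d.primeFactors, p ≤ (d.primeFactors.card + 1) * ∏ p ∈ d.primeFactors, (p - 1) :=
    prod_le_card _ fun p hp => (Nat.prime_of_mem_primeFactors hp).two_le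
  have h3 : 0 < ∏ p ∈ d.primeFactors, (p - 1) := Finset.prod_pos fun p hp => by
    have := (Nat.prime_of_mem_primeFactors hp).two_le
    omega
  have h4 : d.primeFactors.card ≤ Nat.log 2 d := by
    apply Nat.le_log_of_pow_le (by norm_num)
    calc 2 ^ d.primeFactors.card ≤ ∏ p ∈ d.primeFactors, p :=
          Finset.pow_card_le_prod _ _ _ fun p hp => (Nat.prime_of_mem_primeFactors hp).two_le
      _ ≤ d := Nat.le_of_dvd hd (Nat.prod_primeFactors_dvd d)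
  have h5 : d * ∏ p ∈ d.primeFactors, (p - 1) ≤
      (Nat.totient d * (Nat.log 2 d + 1)) * ∏ p ∈ d.primeFactors, (p - 1) := by
    rw [← h1]
    calc Nat.totient d * ∏ p ∈ d.primeFactors, p
        ≤ Nat.totient d * ((d.primeFactors.card + 1) * ∏ p ∈ d.primeFactors, (p - 1)) :=
          Nat.mul_le_mul_left _ h2
      _ ≤ Nat.totient d * ((Nat.log 2 d + 1) * ∏ p ∈ d.primeFactors, (p - 1)) := by gcongr
      _ = _ := by ring
  exact Nat.le_of_mul_le_mul_right h5 h3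

lemma log_bound (ε : ℝ) (hε : 0 < ε) : ∃ C : ℝ, 1 ≤ C ∧ ∀ v : ℕ, 1 ≤ v → ((Nat.log 2 v + 1 : ℕ) : ℝ) ≤ C * (v : ℝ) ^ ε := by
  refine ⟨1 + 1 / (ε * Real.log 2), by
    have : 0 < Real.log 2 := Real.log_pos (by norm_num)
    have : 0 ≤ 1 / (ε * Real.log 2) := by positivity
    linarith, fun v hv => ?_⟩
  have hv1 : (1 : ℝ) ≤ v := by exact_mod_cast hv
  have hv0 : (0 : ℝ) < v := by linarith
  have hl2 : 0 < Real.log 2 := Real.log_pos (by norm_num)
  have h1 : (Nat.log 2 v : ℝ) * Real.log 2 ≤ Real.log v := by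
    have h2 : ((2 : ℝ) ^ Nat.log 2 v) ≤ v := by exact_mod_cast Nat.pow_log_le_self 2 (by omega)
    have h3 := Real.log_le_log (by positivity) h2
    rwa [Real.log_pow] at h3
  have h2 : Real.log v ≤ (v : ℝ) ^ ε / ε := Real.log_le_rpow_div hv0.le hε
  have h3 : (Nat.log 2 v : ℝ) ≤ 1 / (ε * Real.log 2) * (v : ℝ) ^ ε := by
    have h4 : (Nat.log 2 v : ℝ) ≤ (v : ℝ) ^ ε / ε / Real.log 2 := by
      rw [le_div_iff₀ hl2]
      exact h1.trans h2
    refine h4.trans (le_of_eq ?_)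
    field_simp
  have h4 : (1 : ℝ) ≤ (v : ℝ) ^ ε := Real.one_le_rpow hv1 hε.le
  push_cast
  rw [add_mul]
  linarith

theorem lin_totient : Lin Nat.totient := by
  intro ε hε
  obtain ⟨C, hC, h⟩ := log_bound ε hε
  refine ⟨C, hC, fun v hv => ?_⟩
  have hv1 : (1 : ℝ) ≤ v := by exact_mod_cast hv
  have hv0 : (0 : ℝ) < v := by linarith
  constructor
  · have h1 : (v : ℝ) ≤ (Nat.totient v : ℝ) * ((Nat.log 2 v + 1 : ℕ) : ℝ) := by exact_mod_cast le_totient v hv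
    have h2 : (v : ℝ) ≤ (Nat.totient v : ℝ) * (C * (v : ℝ) ^ ε) :=
      h1.trans (mul_le_mul_of_nonneg_left (h v hv) (Nat.cast_nonneg _))
    rw [Real.rpow_sub hv0, Real.rpow_one, div_le_iff₀ (by positivity)]
    linarith
  · have h1 : (Nat.totient v : ℝ) ≤ v := by exact_mod_cast Nat.totient_le v
    have h2 : (v : ℝ) ≤ (v : ℝ) ^ (1 + ε) := by
      calc (v : ℝ) = (v : ℝ) ^ (1 : ℝ) := (Real.rpow_one _).symm
        _ ≤ (v : ℝ) ^ (1 + ε) := Real.rpow_le_rpow_of_exponent_le hv1 (by linarith)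
    have h3 : (0 : ℝ) ≤ (v : ℝ) ^ (1 + ε) := by positivity
    nlinarith

theorem lin_sigma : Lin (fun m => ∑ d ∈ m.divisors, d) := by
  intro ε hε
  obtain ⟨D, hD0, hD⟩ := Pool.Agent.H510R2.divisor_bound ε hε
  refine ⟨max D 1, le_max_right _ _, fun v hv => ?_⟩
  have hv1 : (1 : ℝ) ≤ v := by exact_mod_cast hv
  have hv0 : (0 : ℝ) < v := by linarith
  have hle : v ≤ ∑ d ∈ v.divisors, d := single_le_sum (f := fun d => d) (fun _ _ => Nat.zero_le _)
    (Nat.mem_divisors_self v (by omega))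
  have hle' : (v : ℝ) ≤ ((∑ d ∈ v.divisors, d : ℕ) : ℝ) := by exact_mod_cast hle
  have hup : ∑ d ∈ v.divisors, d ≤ v.divisors.card * v := by
    calc ∑ d ∈ v.divisors, d ≤ ∑ _d ∈ v.divisors, v := sum_le_sum (fun d hd => Nat.divisor_le hd)
      _ = v.divisors.card * v := by rw [sum_const, smul_eq_mul]
  have hup' : ((∑ d ∈ v.divisors, d : ℕ) : ℝ) ≤ (v.divisors.card : ℝ) * v := by exact_mod_cast hup
  have h1 := hD v hv
  constructor
  · have h2 : (v : ℝ) ^ (1 - ε) ≤ v := by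
      calc (v : ℝ) ^ (1 - ε) ≤ (v : ℝ) ^ (1 : ℝ) := Real.rpow_le_rpow_of_exponent_le hv1 (by linarith)
        _ = v := Real.rpow_one _
    have h3 : (1 : ℝ) * ((∑ d ∈ v.divisors, d : ℕ) : ℝ) ≤ max D 1 * ((∑ d ∈ v.divisors, d : ℕ) : ℝ) :=
      mul_le_mul_of_nonneg_right (le_max_right _ _) (Nat.cast_nonneg _)
    linarith
  · calc ((∑ d ∈ v.divisors, d : ℕ) : ℝ) ≤ (v.divisors.card : ℝ) * v := hup'
      _ ≤ (D * (v : ℝ) ^ ε) * v := mul_le_mul_of_nonneg_right h1 hv0.le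
      _ = D * (v : ℝ) ^ (1 + ε) := by
          rw [add_comm 1 ε, Real.rpow_add hv0, Real.rpow_one]
          ring
      _ ≤ max D 1 * (v : ℝ) ^ (1 + ε) := mul_le_mul_of_nonneg_right (le_max_left _ _) (by positivity)

/-- composition -/
theorem Lin.comp {f g : ℕ → ℕ} (hf : Lin f) (hg : Lin g) (hg1 : ∀ v : ℕ, 1 ≤ v → 1 ≤ g v) : Lin (fun v => f (g v)) := by
  intro ε hε
  obtain ⟨η, hη⟩ : ∃ η, η = min ε 1 / 4 := ⟨_, rfl⟩
  have hη0 : 0 < η := by rw [hη]; positivity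
  have hη1 : 4 * η ≤ ε := by rw [hη]; linarith [min_le_left ε 1]
  have hη2 : 4 * η ≤ 1 := by rw [hη]; linarith [min_le_right ε 1]
  obtain ⟨C, hC, h1⟩ := hf η hη0
  obtain ⟨D, hD, h2⟩ := hg η hη0
  have hC0 : 0 < C := by linarith
  have hD0 : 0 < D := by linarith
  refine ⟨C * D ^ (1 + η), ?_, fun v hv => ?_⟩
  · have : 1 ≤ D ^ (1 + η) := Real.one_le_rpow hD (by linarith)
    nlinarith
  have hv1 : (1 : ℝ) ≤ v := by exact_mod_cast hv
  have hv0 : (0 : ℝ) < v := by linarith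
  obtain ⟨a1, a2⟩ := h1 (g v) (hg1 v hv)
  obtain ⟨b1, b2⟩ := h2 v hv
  have hgv : (1 : ℝ) ≤ g v := by exact_mod_cast hg1 v hv
  have hgv0 : (0 : ℝ) < g v := by linarith
  have hfv : (0 : ℝ) ≤ f (g v) := Nat.cast_nonneg _
  constructor
  · have c1 : ((v : ℝ) ^ (1 - η)) ^ (1 - η) ≤ (D * g v) ^ (1 - η) :=
      Real.rpow_le_rpow (by positivity) b1 (by linarith)
    rw [← Real.rpow_mul hv0.le, Real.mul_rpow hD0.le hgv0.le] at c1
    calc (v : ℝ) ^ (1 - ε) ≤ (v : ℝ) ^ ((1 - η) * (1 - η)) :=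
          Real.rpow_le_rpow_of_exponent_le hv1 (by nlinarith)
      _ ≤ D ^ (1 - η) * (g v : ℝ) ^ (1 - η) := c1
      _ ≤ D ^ (1 + η) * (C * f (g v)) :=
          mul_le_mul (Real.rpow_le_rpow_of_exponent_le hD (by linarith)) a1 (by positivity) (by positivity)
      _ = C * D ^ (1 + η) * f (g v) := by ring
  · have c1 : (g v : ℝ) ^ (1 + η) ≤ (D * (v : ℝ) ^ (1 + η)) ^ (1 + η) :=
      Real.rpow_le_rpow (by positivity) b2 (by linarith)
    rw [Real.mul_rpow hD0.le (by positivity), ← Real.rpow_mul hv0.le] at c1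
    calc (f (g v) : ℝ) ≤ C * (g v : ℝ) ^ (1 + η) := a2
      _ ≤ C * (D ^ (1 + η) * (v : ℝ) ^ ((1 + η) * (1 + η))) := mul_le_mul_of_nonneg_left c1 hC0.le
      _ ≤ C * (D ^ (1 + η) * (v : ℝ) ^ (1 + ε)) := by
          apply mul_le_mul_of_nonneg_left _ hC0.le
          apply mul_le_mul_of_nonneg_left _ (by positivity)
          exact Real.rpow_le_rpow_of_exponent_le hv1 (by nlinarith)
      _ = C * D ^ (1 + η) * (v : ℝ) ^ (1 + ε) := by ring

theorem iter_pos (k : ℕ) : ∀ m : ℕ, 1 ≤ m → 1 ≤ Nat.totient^[k] m := by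
  induction k with
  | zero => exact fun m hm => hm
  | succ k ih =>
    intro m hm
    rw [Function.iterate_succ_apply]
    exact ih _ (Nat.totient_pos.2 hm)

theorem lin_iter (k : ℕ) : Lin (fun m => Nat.totient^[k] m) := by
  induction k with
  | zero => exact lin_id
  | succ k ih =>
    have h := ih.comp lin_totient (fun v hv => Nat.totient_pos.2 hv)
    intro ε hε
    obtain ⟨C, hC, h1⟩ := h ε hε
    refine ⟨C, hC, fun v hv => ?_⟩
    simp only [Function.iterate_succ_apply]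
    exact h1 v hv

theorem lin_orb {f : ℕ → ℕ} (hf : Lin f) (k : ℕ) : Lin (orb f k) := hf.comp (lin_iter k) (iter_pos k)

end Run7.h430.TO
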