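import Pool.Agent.Run7.h430.TO.All
import Pool.Agent.N760.SC.A

set_option autoImplicit false

/-!
Properties of tuples of integers which are bad for few tuples at every scale, near tuples of orbits of Euler's function
(helper430).
-/

namespace Run7.h430.TO

open Finset Filter Topology
open Pool.Agent.N733.TG (LM)
open Pool.Agent.N760.SC (BadTuples count_scales)

theorem orb_scales {k : ℕ} (hk : 1 ≤ k) (κ : ℕ) (P Q : ℕ → (Fin k → ℕ) → Prop)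
    (hPQ : ∀ (N T : ℕ) (s : Fin k → ℕ), N ≤ T → T < 2 * N → P T s → Q N s)
    (hQ : ∃ K N₀ : ℕ, ∀ N : ℕ, N₀ ≤ N →
      {s : Fin k → ℕ | (∀ j, N ≤ s j ∧ s j ≤ (2 * κ) * N) ∧ Q N s}.ncard ≤ K * N ^ (k - 1))
    {F : Fin k → ℕ → ℕ} (hF : ∀ i, LM (F i)) (hL : ∀ i, Lin (F i)) {θ : ℝ} (hθ : 0 ≤ θ) (hθk : k * θ < 1) :
    ∃ K : ℕ → ℕ, Tendsto K atTop atTop ∧ ∀ ε : ℝ, 0 < ε → ∃ N₀ : ℕ, ∀ N : ℕ, N₀ ≤ N →
      ({m : Fin k → ℕ | (∀ i, 1 ≤ m i ∧ m i ≤ N) ∧ ∃ (s : Fin k → ℕ) (T : ℕ), NearT F (K N) ((N : ℝ) ^ θ) m s ∧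
        1 ≤ T ∧ (∀ i, T ≤ s i ∧ s i ≤ κ * T) ∧ P T s}.ncard : ℝ) ≤ ε * (N : ℝ) ^ k := by
  have hk1 : (1 : ℝ) ≤ k := by exact_mod_cast hk
  obtain ⟨ε', hε'⟩ : ∃ ε' : ℝ, ε' = (1 - k * θ) / 2 := ⟨_, rfl⟩
  have hε'0 : 0 < ε' := by rw [hε']; linarith
  have hkθ0 : 0 ≤ k * θ := by positivity
  obtain ⟨C₀, hC₀, hcount⟩ := count_scales hk κ P Q hPQ hQ ε' hε'0
  obtain ⟨K, hK, h⟩ := win_all (F := F) hF hL (c := 1 - ε') (κ := θ) (by linarith) hθ (by nlinarith)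
    (by rw [hε']; linarith) C₀
  refine ⟨K, hK, fun ε hε => ?_⟩
  obtain ⟨N₀, hN₀⟩ := h ε hε
  refine ⟨N₀, fun N hN => ?_⟩
  have h1 := hN₀ N hN (BadTuples κ P) (fun X hX => by
    have hfin : {s : Fin k → ℕ | s ∈ BadTuples κ P ∧ ∀ i, s i ≤ X}.Finite := by
      refine (Set.Finite.pi' (t := fun _ : Fin k => Set.Iic X) fun _ => Set.finite_Iic _).subset ?_
      intro s hs j
      exact hs.2 j
    have h2 : {t : Fin k → ℕ | (∀ i, 1 ≤ t i ∧ t i ≤ X) ∧ t ∈ BadTuples κ P} ⊆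
        {s : Fin k → ℕ | s ∈ BadTuples κ P ∧ ∀ i, s i ≤ X} := fun t ht => ⟨ht.2, fun i => (ht.1 i).2⟩
    have h3 : ({t : Fin k → ℕ | (∀ i, 1 ≤ t i ∧ t i ≤ X) ∧ t ∈ BadTuples κ P}.ncard : ℝ) ≤
        ({s : Fin k → ℕ | s ∈ BadTuples κ P ∧ ∀ i, s i ≤ X}.ncard : ℝ) := by
      exact_mod_cast Set.ncard_le_ncard h2 hfin
    refine h3.trans ((hcount X hX).trans (le_of_eq ?_))
    congr 2
    ring)
  refine le_trans (le_of_eq ?_) h1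
  congr 2
  ext m
  constructor
  · rintro ⟨hm, s, T, hs, hT, h2, h3⟩
    exact ⟨hm, s, ⟨T, hT, h2, h3⟩, hs⟩
  · rintro ⟨hm, s, ⟨T, hT, h2, h3⟩, hs⟩
    exact ⟨hm, s, T, hs, hT, h2, h3⟩

end Run7.h430.TO
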