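import Pool.Agent.Run7.h430.TO.Av

set_option autoImplicit false

/-!
Tuples of integers near multiples of the values along tuples of orbits of Euler's function, all iterates up to `K(N)`, avoid
sets of tuples with a power saving, at one scale (helper430).
-/

namespace Run7.h430.TO

open Finset Filter Topology
open Pool.Agent.N733.TG (LM Box mem_Box card_Box box_fiber)
open Pool.Agent.N760.IT (orb)

/-- for some iterates `j i ≤ J` and multiples `a i ≤ J` a tuple of `W` is within `w` of the tuple of the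
`a i F i (φ_{j i} (m i))` -/
def Near {k : ℕ} (F : Fin k → ℕ → ℕ) (W : Set (Fin k → ℕ)) (J : ℕ) (w : ℝ) (m : Fin k → ℕ) : Prop :=
  ∃ j a : Fin k → ℕ, (∀ i, j i ≤ J) ∧ (∀ i, 1 ≤ a i ∧ a i ≤ J) ∧
    ∃ t ∈ W, ∀ i, 1 ≤ t i ∧ |(t i : ℝ) - a i * orb (F i) (j i) (m i)| ≤ w

theorem near_mono {k : ℕ} {F : Fin k → ℕ → ℕ} {W : Set (Fin k → ℕ)} {J J' : ℕ} (h : J ≤ J') {w : ℝ} {m : Fin k → ℕ}
    (hm : Near F W J w m) : Near F W J' w m := by
  obtain ⟨j, a, h1, h2, h3⟩ := hm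
  exact ⟨j, a, fun i => (h1 i).trans h, fun i => ⟨(h2 i).1, (h2 i).2.trans h⟩, h3⟩

/-- integers near `t / a` -/
lemma near_card (t a : ℕ) (ha : 1 ≤ a) {w : ℝ} (hw : 0 ≤ w) (S : Finset ℕ) (hS : ∀ v ∈ S, |(t : ℝ) - a * v| ≤ w) :
    (S.card : ℝ) ≤ 2 * w + 1 := by
  rcases S.eq_empty_or_nonempty with rfl | hne
  · simp only [card_empty, Nat.cast_zero]
    positivity
  have hmin := hS _ (S.min'_mem hne)
  have hmax := hS _ (S.max'_mem hne)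
  rw [abs_le] at hmin hmax
  have ha1 : (1 : ℝ) ≤ a := by exact_mod_cast ha
  have hsub : S ⊆ Icc (S.min' hne) (S.max' hne) := fun A hA => mem_Icc.2 ⟨S.min'_le A hA, S.le_max' A hA⟩
  have h1 := card_le_card hsub
  rw [Nat.card_Icc] at h1
  have hle : S.min' hne ≤ S.max' hne := S.min'_le _ (S.max'_mem hne)
  have h2 : (S.card : ℝ) ≤ (S.max' hne : ℝ) + 1 - S.min' hne := by
    have h3 : ((S.max' hne + 1 - S.min' hne : ℕ) : ℝ) = (S.max' hne : ℝ) + 1 - S.min' hne := by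
      rw [Nat.cast_sub (by omega)]
      push_cast
      ring
    rw [← h3]
    exact_mod_cast h1
  have h3 : (a : ℝ) * ((S.max' hne : ℝ) - S.min' hne) ≤ 2 * w := by linarith [hmin.2, hmax.1, hmin.1, hmax.2]
  have h4 : (0 : ℝ) ≤ (S.max' hne : ℝ) - S.min' hne := by
    rw [sub_nonneg]
    exact_mod_cast hle
  nlinarith

open Classical in
/-- fixed iterates and multiples -/
theorem win_one {k : ℕ} {F : Fin k → ℕ → ℕ} (j a : Fin k → ℕ) (ha : ∀ i, 1 ≤ a i) (hF : ∀ i, LM (F i)) (hL : ∀ i, Lin (F i))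
    {c ρ κ : ℝ} (hρ : 0 < ρ) (hκ0 : 0 ≤ κ) (hκ1 : κ ≤ 1) (hκ : k * κ < c) {C₀ : ℝ} (hC₀ : 0 ≤ C₀) (ε : ℝ) (hε : 0 < ε) :
    ∃ N₀ : ℕ, ∀ N : ℕ, N₀ ≤ N → ∀ W : Set (Fin k → ℕ),
      (((Box k ⌊(N : ℝ) ^ (1 + ρ)⌋₊).filter (fun v => v ∈ W)).card : ℝ) ≤ C₀ * (N : ℝ) ^ ((k : ℝ) - c) →
      (((Box k N).filter (fun m => ∃ t ∈ W, ∀ i, 1 ≤ t i ∧
        |(t i : ℝ) - a i * orb (F i) (j i) (m i)| ≤ (N : ℝ) ^ κ)).card : ℝ) ≤ ε * (N : ℝ) ^ k := by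
  obtain ⟨N₁, hN₁⟩ := tuples_orb k F j hF hL (c - k * κ) (ρ / 2) (by linarith) (by linarith) (3 ^ k * C₀) ε hε
  obtain ⟨A, hA⟩ : ∃ A : ℕ, ∀ i, a i ≤ A := ⟨∑ i, a i, fun i => single_le_sum (fun _ _ => Nat.zero_le _) (mem_univ i)⟩
  have hlim := ((tendsto_rpow_atTop (show (0 : ℝ) < ρ / 2 by linarith)).comp
    (tendsto_natCast_atTop_atTop (R := ℝ))).eventually_ge_atTop ((A : ℝ) + 1)
  obtain ⟨N₂, hN₂⟩ := eventually_atTop.1 hlim
  refine ⟨max (max N₁ N₂) 1, fun N hN W hW => ?_⟩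
  have b1 : N₁ ≤ N := (le_max_left _ _).trans ((le_max_left _ _).trans hN)
  have b2 : N₂ ≤ N := (le_max_right _ _).trans ((le_max_left _ _).trans hN)
  have b3 : 1 ≤ N := (le_max_right _ _).trans hN
  have hN1 : (1 : ℝ) ≤ N := by exact_mod_cast b3
  have hN0 : (0 : ℝ) < N := by linarith
  have g := hN₂ N b2
  simp only [Function.comp] at g
  obtain ⟨w, hw⟩ : ∃ w : ℝ, w = (N : ℝ) ^ κ := ⟨_, rfl⟩
  rw [← hw]
  have hw1 : 1 ≤ w := by rw [hw]; exact Real.one_le_rpow hN1 hκ0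
  have hwN : w ≤ N := by
    rw [hw]
    calc (N : ℝ) ^ κ ≤ (N : ℝ) ^ (1 : ℝ) := Real.rpow_le_rpow_of_exponent_le hN1 hκ1
      _ = N := Real.rpow_one _
  obtain ⟨X, hX⟩ : ∃ X : ℕ, X = ⌊(N : ℝ) ^ (1 + ρ)⌋₊ := ⟨_, rfl⟩
  obtain ⟨Y, hY⟩ : ∃ Y : ℕ, Y = ⌊(N : ℝ) ^ (1 + ρ / 2)⌋₊ := ⟨_, rfl⟩
  rw [← hX] at hW
  obtain ⟨V, hV⟩ : ∃ V : Set (Fin k → ℕ), V = {v | ∃ t ∈ W, ∀ i, 1 ≤ t i ∧ |(t i : ℝ) - a i * v i| ≤ w} := ⟨_, rfl⟩
  have hVc : (((Box k ⌊(N : ℝ) ^ (1 + ρ / 2)⌋₊).filter (fun v => v ∈ V)).card : ℝ) ≤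
      3 ^ k * C₀ * (N : ℝ) ^ ((k : ℝ) - (c - k * κ)) := by
    rw [← hY]
    have hYle : (Y : ℝ) ≤ (N : ℝ) ^ (1 + ρ / 2) := by rw [hY]; exact Nat.floor_le (by positivity)
    have hbox : ∀ t v : Fin k → ℕ, v ∈ Box k Y → (∀ i, 1 ≤ t i ∧ |(t i : ℝ) - a i * v i| ≤ w) → t ∈ Box k X := by
      intro t v hv ht
      rw [mem_Box] at hv ⊢
      intro i
      refine ⟨(ht i).1, ?_⟩
      rw [hX]
      apply Nat.le_floor
      have h1 := (abs_le.1 (ht i).2).2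
      have h2 : (v i : ℝ) ≤ Y := by exact_mod_cast (hv i).2
      have h3 : (a i : ℝ) ≤ A := by exact_mod_cast hA i
      have h4 : (a i : ℝ) * v i ≤ A * (N : ℝ) ^ (1 + ρ / 2) :=
        mul_le_mul h3 (h2.trans hYle) (Nat.cast_nonneg _) (Nat.cast_nonneg _)
      have h5 : w ≤ (N : ℝ) ^ (1 + ρ / 2) := by
        refine hwN.trans ?_
        calc (N : ℝ) = (N : ℝ) ^ (1 : ℝ) := (Real.rpow_one _).symm
          _ ≤ (N : ℝ) ^ (1 + ρ / 2) := Real.rpow_le_rpow_of_exponent_le hN1 (by linarith)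
      calc (t i : ℝ) ≤ a i * v i + w := by linarith
        _ ≤ (A + 1) * (N : ℝ) ^ (1 + ρ / 2) := by linarith
        _ ≤ (N : ℝ) ^ (ρ / 2) * (N : ℝ) ^ (1 + ρ / 2) := mul_le_mul_of_nonneg_right g (by positivity)
        _ = (N : ℝ) ^ (1 + ρ) := by
            rw [← Real.rpow_add hN0]
            congr 1
            ring
    have hsub : (Box k Y).filter (fun v => v ∈ V) ⊆ ((Box k X).filter (fun t => t ∈ W)).biUnion (fun t =>
        Fintype.piFinset (fun i => (Icc 1 Y).filter (fun v : ℕ => |(t i : ℝ) - a i * v| ≤ w))) := by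
      intro v hv
      rw [mem_filter, hV] at hv
      obtain ⟨hvB, t, htW, ht⟩ := hv
      rw [mem_biUnion]
      refine ⟨t, mem_filter.2 ⟨hbox t v hvB ht, htW⟩, ?_⟩
      rw [Fintype.mem_piFinset]
      intro i
      rw [mem_filter, mem_Icc]
      exact ⟨mem_Box.1 hvB i, (ht i).2⟩
    have h1 : ∀ t ∈ (Box k X).filter (fun t => t ∈ W),
        ((Fintype.piFinset (fun i => (Icc 1 Y).filter (fun v : ℕ => |(t i : ℝ) - a i * v| ≤ w))).card : ℝ) ≤ (3 * w) ^ k := by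
      intro t _
      rw [Fintype.card_piFinset]
      push_cast
      calc ∏ i, (((Icc 1 Y).filter (fun v : ℕ => |(t i : ℝ) - a i * v| ≤ w)).card : ℝ) ≤ ∏ _i : Fin k, (3 * w) := by
            refine prod_le_prod (fun i _ => Nat.cast_nonneg _) (fun i _ => ?_)
            refine (near_card (t i) (a i) (ha i) (by linarith) _ (fun v hv => (mem_filter.1 hv).2)).trans ?_
            linarith
        _ = (3 * w) ^ k := by rw [prod_const, card_univ, Fintype.card_fin]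
    calc (((Box k Y).filter (fun v => v ∈ V)).card : ℝ)
        ≤ ∑ t ∈ (Box k X).filter (fun t => t ∈ W),
            ((Fintype.piFinset (fun i => (Icc 1 Y).filter (fun v : ℕ => |(t i : ℝ) - a i * v| ≤ w))).card : ℝ) := by
          exact_mod_cast (card_le_card hsub).trans card_biUnion_le
      _ ≤ ∑ _t ∈ (Box k X).filter (fun t => t ∈ W), (3 * w) ^ k := sum_le_sum h1
      _ = (((Box k X).filter (fun t => t ∈ W)).card : ℝ) * (3 * w) ^ k := by rw [sum_const, nsmul_eq_mul]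
      _ ≤ (C₀ * (N : ℝ) ^ ((k : ℝ) - c)) * (3 * w) ^ k := mul_le_mul_of_nonneg_right hW (by positivity)
      _ = 3 ^ k * C₀ * (N : ℝ) ^ ((k : ℝ) - (c - k * κ)) := by
          have e1 : w ^ k = (N : ℝ) ^ (k * κ) := by
            rw [hw, ← Real.rpow_natCast, ← Real.rpow_mul hN0.le, mul_comm]
          rw [mul_pow, e1, show (k : ℝ) - (c - k * κ) = ((k : ℝ) - c) + k * κ by ring, Real.rpow_add hN0]
          ring
  have h1 := hN₁ N b1 V hVc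
  refine le_trans (Nat.cast_le.2 (card_le_card (fun m hm => ?_))) h1
  rw [mem_filter] at hm ⊢
  refine ⟨hm.1, ?_⟩
  rw [hV]
  exact hm.2

open Classical in
/-- **Tuples near tuples of orbits.** -/
theorem win_orb {k : ℕ} {F : Fin k → ℕ → ℕ} (hF : ∀ i, LM (F i)) (hL : ∀ i, Lin (F i))
    {c ρ κ : ℝ} (hρ : 0 < ρ) (hκ0 : 0 ≤ κ) (hκ1 : κ ≤ 1) (hκ : k * κ < c) (C₀ : ℝ) :
    ∃ K : ℕ → ℕ, Tendsto K atTop atTop ∧ ∀ ε : ℝ, 0 < ε → ∃ N₀ : ℕ, ∀ N : ℕ, N₀ ≤ N → ∀ W : Set (Fin k → ℕ),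
      (((Box k ⌊(N : ℝ) ^ (1 + ρ)⌋₊).filter (fun v => v ∈ W)).card : ℝ) ≤ C₀ * (N : ℝ) ^ ((k : ℝ) - c) →
      (((Box k N).filter (fun m => Near F W (K N) ((N : ℝ) ^ κ) m)).card : ℝ) ≤ ε * (N : ℝ) ^ k := by
  -- fixed bound
  have h1 : ∀ J : ℕ, ∃ N₀ : ℕ, ∀ N : ℕ, N₀ ≤ N → ∀ W : Set (Fin k → ℕ),
      (((Box k ⌊(N : ℝ) ^ (1 + ρ)⌋₊).filter (fun v => v ∈ W)).card : ℝ) ≤ C₀ * (N : ℝ) ^ ((k : ℝ) - c) →
      (((Box k N).filter (fun m => Near F W J ((N : ℝ) ^ κ) m)).card : ℝ) ≤ 1 / ((J : ℝ) + 1) * (N : ℝ) ^ k := by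
    intro J
    obtain ⟨S, hS⟩ : ∃ S : Finset ((Fin k → ℕ) × (Fin k → ℕ)),
      S = (Fintype.piFinset (fun _ : Fin k => Icc 0 J)) ×ˢ (Fintype.piFinset (fun _ : Fin k => Icc 1 J)) := ⟨_, rfl⟩
    have hpos : 0 < 1 / ((J : ℝ) + 1) / ((S.card : ℝ) + 1) := by positivity
    have h2 : ∀ q ∈ S, ∃ N₀ : ℕ, ∀ N : ℕ, N₀ ≤ N → ∀ W : Set (Fin k → ℕ),
      (((Box k ⌊(N : ℝ) ^ (1 + ρ)⌋₊).filter (fun v => v ∈ W)).card : ℝ) ≤ |C₀| * (N : ℝ) ^ ((k : ℝ) - c) →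
      (((Box k N).filter (fun m => ∃ t ∈ W, ∀ i, 1 ≤ t i ∧
        |(t i : ℝ) - q.2 i * orb (F i) (q.1 i) (m i)| ≤ (N : ℝ) ^ κ)).card : ℝ) ≤
          1 / ((J : ℝ) + 1) / ((S.card : ℝ) + 1) * (N : ℝ) ^ k := by
      intro q hq
      rw [hS, mem_product, Fintype.mem_piFinset, Fintype.mem_piFinset] at hq
      exact win_one q.1 q.2 (fun i => (mem_Icc.1 (hq.2 i)).1) hF hL hρ hκ0 hκ1 hκ (abs_nonneg C₀) _ hpos
    choose! B hB using h2
    refine ⟨∑ q ∈ S, B q, fun N hN W hW => ?_⟩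
    have hW' : (((Box k ⌊(N : ℝ) ^ (1 + ρ)⌋₊).filter (fun v => v ∈ W)).card : ℝ) ≤ |C₀| * (N : ℝ) ^ ((k : ℝ) - c) :=
      hW.trans (mul_le_mul_of_nonneg_right (le_abs_self _) (by positivity))
    have hsub : (Box k N).filter (fun m => Near F W J ((N : ℝ) ^ κ) m) ⊆ S.biUnion (fun q =>
        (Box k N).filter (fun m => ∃ t ∈ W, ∀ i, 1 ≤ t i ∧ |(t i : ℝ) - q.2 i * orb (F i) (q.1 i) (m i)| ≤ (N : ℝ) ^ κ)) := by
      intro m hm
      rw [mem_filter] at hm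
      obtain ⟨hmB, j, a, hj, ha, ht⟩ := hm
      rw [mem_biUnion]
      refine ⟨(j, a), ?_, mem_filter.2 ⟨hmB, ht⟩⟩
      rw [hS, mem_product, Fintype.mem_piFinset, Fintype.mem_piFinset]
      exact ⟨fun i => mem_Icc.2 ⟨Nat.zero_le _, hj i⟩, fun i => mem_Icc.2 (ha i)⟩
    calc (((Box k N).filter (fun m => Near F W J ((N : ℝ) ^ κ) m)).card : ℝ)
        ≤ ∑ q ∈ S, (((Box k N).filter (fun m => ∃ t ∈ W, ∀ i, 1 ≤ t i ∧
            |(t i : ℝ) - q.2 i * orb (F i) (q.1 i) (m i)| ≤ (N : ℝ) ^ κ)).card : ℝ) := by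
          exact_mod_cast (card_le_card hsub).trans card_biUnion_le
      _ ≤ ∑ _q ∈ S, 1 / ((J : ℝ) + 1) / ((S.card : ℝ) + 1) * (N : ℝ) ^ k := by
          refine sum_le_sum (fun q hq => hB q hq N (le_trans ?_ hN) W hW')
          exact single_le_sum (fun _ _ => Nat.zero_le _) hq
      _ = (S.card : ℝ) / ((S.card : ℝ) + 1) * (1 / ((J : ℝ) + 1) * (N : ℝ) ^ k) := by
          rw [sum_const, nsmul_eq_mul]
          ring
      _ ≤ 1 * (1 / ((J : ℝ) + 1) * (N : ℝ) ^ k) := by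
          apply mul_le_mul_of_nonneg_right _ (by positivity)
          rw [div_le_one (by positivity)]
          linarith
      _ = 1 / ((J : ℝ) + 1) * (N : ℝ) ^ k := one_mul _
  choose A hA using h1
  refine ⟨fun N => Nat.findGreatest (fun J => A J ≤ N) N, ?_, fun ε hε => ?_⟩
  · rw [tendsto_atTop_atTop]
    intro J
    refine ⟨max (A J) J, fun N hN => ?_⟩
    exact Nat.le_findGreatest ((le_max_right _ _).trans hN) ((le_max_left _ _).trans hN)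
  · obtain ⟨J₀, hJ₀⟩ := exists_nat_gt (1 / ε)
    refine ⟨max (A J₀) J₀, fun N hN W hW => ?_⟩
    obtain ⟨J, hJ⟩ : ∃ J, J = Nat.findGreatest (fun J => A J ≤ N) N := ⟨_, rfl⟩
    have h2 : A J ≤ N := by
      rw [hJ]
      exact Nat.findGreatest_spec (P := fun J => A J ≤ N) ((le_max_right _ _).trans hN) ((le_max_left _ _).trans hN)
    have h3 : J₀ ≤ J := by
      rw [hJ]
      exact Nat.le_findGreatest ((le_max_right _ _).trans hN) ((le_max_left _ _).trans hN)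
    have h4 := hA J N h2 W hW
    simp only
    rw [← hJ]
    refine h4.trans (mul_le_mul_of_nonneg_right ?_ (by positivity))
    have h5 : (J₀ : ℝ) ≤ J := by exact_mod_cast h3
    rw [div_le_iff₀ (by positivity)]
    rw [div_lt_iff₀ hε] at hJ₀
    nlinarith

end Run7.h430.TO
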